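import Pool.Agent.Helper49.KR.St

set_option autoImplicit false

namespace Pool.Agent.Helper6.KR

open Finset Filter Topology
open Pool.Agent.Helper49.KX Pool.Agent.Helper49.KR

theorem hDEG : StDeg := by
  intro θ a b M N ha hb
  constructor
  · intro m hm
    unfold tw
    rw [Finsupp.sum, Finsupp.finsetSum_apply]
    apply Finset.sum_eq_zero
    intro n hn
    rw [Finsupp.sum, Finsupp.finsetSum_apply]
    apply Finset.sum_eq_zero
    intro n' hn'
    apply Finsupp.single_eq_of_ne
    rintro h
    have h1 : |n| ≤ (M : ℤ) := by
      by_contra hc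
      exact (Finsupp.mem_support_iff.1 hn) (ha n (not_le.1 hc))
    have h2 : |n'| ≤ (N : ℤ) := by
      by_contra hc
      exact (Finsupp.mem_support_iff.1 hn') (hb n' (not_le.1 hc))
    have h3 := abs_add_le n n'
    rw [← h] at h3
    push_cast at hm
    omega
  · intro m hm
    have hm0 : m ≠ 0 := by
      rintro rfl
      rw [abs_zero] at hm
      omega
    rw [Finsupp.sub_apply, ha m hm]
    unfold un
    rw [Finsupp.single_eq_of_ne hm0, sub_zero]

end Pool.Agent.Helper6.KR
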